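import Mathlib

/-! Kernel-friendly checker for a double coset enumeration certificate. -/

namespace Pool.Agent.Hhelper9.G24

/-- binary trees of packed numbers -/
inductive Tr where
  | L : ℕ → Tr
  | N : Tr → Tr → Tr

/-- look up entry `i` -/
noncomputable def Tr.get (t : Tr) : ℕ → ℕ :=
  Tr.rec (motive := fun _ => ℕ → ℕ) (fun n i => (n >>> (33 * i)) % 8589934592)
    (fun _ _ hl hr i => bif Nat.beq (i % 2) 0 then hl (i / 2) else hr (i / 2)) t

/-- rotation part of the multiplication, first coordinate -/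
def r1 (k i j : ℕ) : ℕ :=
  bif Nat.beq k 0 then i else bif Nat.beq k 1 then 8 * i + 5 * j else bif Nat.beq k 2 then 9 * i else 2 * i + 5 * j

/-- rotation part of the multiplication, second coordinate -/
def r2 (k i j : ℕ) : ℕ :=
  bif Nat.beq k 0 then j else bif Nat.beq k 1 then i else bif Nat.beq k 2 then j else i

/-- multiplication of the group of order 80 in coded form -/
def mulP (p q : ℕ) : ℕ :=
  (p % 10 + r1 (p / 20) (q % 10) (q / 10 % 2)) % 10
    + 10 * ((p / 10 % 2 + r2 (p / 20) (q % 10) (q / 10 % 2)) % 2)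
    + 20 * ((p / 20 + q / 20) % 4)

/-- table of sixteen right multiplications -/
def Rn : ℕ := 0x1b1a1918171615141d1c2524232221201f1e27260a131211100f0e0d0c0b000908070605040302013d3c4544434241403f3e47464f4e4d4c4b4a49483a39383736353433323b302f2e2d2c2b2a2928310706050403020100090811100f0e0d0c0b0a1312464f4e4d4c4b4a4948473c4544434241403f3e3d292831302f2e2d2c2b2a33323b3a393837363534262524232221201f1e271c1b1a1918171615141d434241403f3e3d3c45444d4c4b4a494847464f4e323b3a393837363534332831302f2e2d2c2b2a2915141d1c1b1a191817161f1e27262524232221201211100f0e0d0c0b0a13080706050403020100092f2e2d2c2b2a2928313039383736353433323b3a1e27262524232221201f141d1c1b1a1918171615010009080706050403020b0a131211100f0e0d0c4e4d4c4b4a494847464f44434241403f3e3d3c451b1a1918171615141d1c2524232221201f1e27260a131211100f0e0d0c0b000908070605040302013d3c4544434241403f3e47464f4e4d4c4b4a49483a39383736353433323b302f2e2d2c2b2a2928313a39383736353433323b302f2e2d2c2b2a2928311b1a1918171615141d1c2524232221201f1e27260a131211100f0e0d0c0b000908070605040302013d3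c4544434241403f3e47464f4e4d4c4b4a49483d3c4544434241403f3e47464f4e4d4c4b4a49483a39383736353433323b302f2e2d2c2b2a2928311b1a1918171615141d1c2524232221201f1e27260a131211100f0e0d0c0b000908070605040302010a131211100f0e0d0c0b000908070605040302013d3c4544434241403f3e47464f4e4d4c4b4a49483a39383736353433323b302f2e2d2c2b2a2928311b1a1918171615141d1c2524232221201f1e2726131211100f0e0d0c0b0a090807060504030201004f4e4d4c4b4a494847464544434241403f3e3d3c3b3a393837363534333231302f2e2d2c2b2a292827262524232221201f1e1d1c1b1a19181716151427262524232221201f1e1d1c1b1a191817161514131211100f0e0d0c0b0a090807060504030201004f4e4d4c4b4a494847464544434241403f3e3d3c3b3a393837363534333231302f2e2d2c2b2a29283b3a393837363534333231302f2e2d2c2b2a292827262524232221201f1e1d1c1b1a191817161514131211100f0e0d0c0b0a090807060504030201004f4e4d4c4b4a494847464544434241403f3e3d3c4f4e4d4c4b4a494847464544434241403f3e3d3c3b3a393837363534333231302f2e2d2c2b2a292827262524232221201f1e1d1c1b1a191817161514131211100f0e0d0c0b0a090807060504030201002e2d2c2b2a292831302f38373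6353433323b3a391c1b1a1918171615141d262524232221201f1e27020100090807060504030c0b0a131211100f0e0d3c4544434241403f3e3d464f4e4d4c4b4a494847232221201f1e272625241918171615141d1c1b1a0b0a131211100f0e0d0c01000908070605040302494847464f4e4d4c4b4a3f3e3d3c45444342414039383736353433323b3a2f2e2d2c2b2a29283130080706050403020100091211100f0e0d0c0b0a133e3d3c4544434241403f4847464f4e4d4c4b4a492831302f2e2d2c2b2a29323b3a393837363534331a1918171615141d1c1b24232221201f1e2726254f4e4d4c4b4a494847464544434241403f3e3d3c3b3a393837363534333231302f2e2d2c2b2a292827262524232221201f1e1d1c1b1a191817161514131211100f0e0d0c0b0a09080706050403020100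

/-- entry of the table -/
def rt (kd p : ℕ) : ℕ := (Rn >>> (8 * (80 * kd + p))) % 256

/-- right multiplication of a label -/
def rl (kd l : ℕ) : ℕ := l / 80 * 80 + rt kd (l % 80)

/-- first label of a fact -/
def fz (f : ℕ) : ℕ := f / 2 % 65536

/-- second label of a fact -/
def fy (f : ℕ) : ℕ := f / 131072

/-- source of an instance of a fact -/
def srcI (f g : ℕ) : ℕ := bif Nat.blt g 4 then rl g (fz f) else rl (g + 4) (fy f)

/-- target of an instance of a fact -/
def tgtI (f g : ℕ) : ℕ := bif Nat.blt g 4 then rl (g + 4) (fy f) else rl (g + 8) (fz f)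

/-- one step of a path -/
noncomputable def stp (FT : Tr) (B : ℕ) (ih : ℕ → ℕ → ℕ → Bool) (p cur ex : ℕ) : Bool :=
  let kd := p % 8
  let g := p / 8 % 128
  let j := p / 1024 % 16384
  let f := FT.get j
  bif Nat.beq kd 0 then
    Nat.blt j B && (Nat.beq (f % 2) 0 && (Nat.blt g 8 && (Nat.beq cur (srcI f g) &&
      ih (p / 16777216) (tgtI f g) (ex + 1))))
  else bif Nat.beq kd 1 then
    Nat.blt j B && (Nat.beq (f % 2) 0 && (Nat.blt g 8 && (Nat.beq cur (tgtI f g) &&
      ih (p / 16777216) (srcI f g) (ex + 2))))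
  else bif Nat.beq kd 2 then
    Nat.blt j B && (Nat.beq (f % 2) 1 && (Nat.beq (cur / 80) (fz f / 80) &&
      ih (p / 16777216) (fz f / 80 * 80 + mulP (fz f % 80) (cur % 80)) ex))
  else bif Nat.beq kd 3 then
    Nat.blt j B && (Nat.beq (f % 2) 1 && (Nat.blt g 80 &&
      (Nat.beq cur (fz f / 80 * 80 + mulP (fz f % 80) g) &&
      ih (p / 16777216) (fz f / 80 * 80 + g) ex)))
  else
    Nat.blt cur 80 && (Nat.blt g 80 && ih (p / 16777216) g ex)

/-- evaluate a path with `n` steps -/
noncomputable def ev (FT : Tr) (B : ℕ) (k : ℕ → ℕ → Bool) (n : ℕ) : ℕ → ℕ → ℕ → Bool :=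
  Nat.rec (motive := fun _ => ℕ → ℕ → ℕ → Bool) (fun _ cur ex => k cur ex)
    (fun _ ih p cur ex => stp FT B ih p cur ex) n

/-- check the reason of a fact -/
noncomputable def chk (FT : Tr) (j r : ℕ) : Bool :=
  let f := FT.get j
  let n := r % 8
  let q := r / 8 % 128
  let p := r / 1024
  bif Nat.beq (f % 2) 0 then
    ev FT j (fun cur ex => Nat.beq cur (fy f) && Nat.beq (ex % 3) 1) n p (fz f) 0
  else
    Nat.blt q 80 && ev FT j (fun cur ex => Nat.beq cur (fz f / 80 * 80 + q) && Nat.beq (ex % 3) 0) n p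
      (fz f / 80 * 80 + mulP (fz f % 80) q) 0

/-- check a list of reasons for the facts `j, j+1, ..., e-1` -/
noncomputable def chkL (FT : Tr) (l : List ℕ) : ℕ → ℕ → Bool :=
  List.rec (motive := fun _ => ℕ → ℕ → Bool) (fun j e => Nat.beq j e)
    (fun r _ ih j e => chk FT j r && ih (j + 1) e) l

/-- check that the first `n` facts are definitions -/
noncomputable def defL (FT : Tr) (n : ℕ) : Bool :=
  Nat.rec (motive := fun _ => Bool) true
    (fun j ih => (Nat.beq (FT.get j % 2) 0 && (Nat.beq (fy (FT.get j)) (80 * (j + 1)) &&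
      Nat.ble (fz (FT.get j) / 80) j)) && ih) n

/-- check the coverage of a label -/
noncomputable def cov (FT : Tr) (K m r : ℕ) : Bool :=
  ev FT K (fun cur ex => Nat.beq (ex % 3) 1 && Nat.blt cur 43520) (r % 8) (r / 8) (m / 20 * 80 + m % 20) 0

/-- check the coverage of the labels with numbers `m, ..., e-1` -/
noncomputable def covL (FT : Tr) (K : ℕ) (l : List ℕ) : ℕ → ℕ → Bool :=
  List.rec (motive := fun _ => ℕ → ℕ → Bool) (fun m e => Nat.beq m e)
    (fun r _ ih m e => cov FT K m r && ih (m + 1) e) l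

end Pool.Agent.Hhelper9.G24
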