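import Pool.Agent.Hhelper9.G24.Check

/-! The group of order 80 generated by `a, b`. -/

namespace Pool.Agent.Hhelper9.G24

/-- the relations -/
structure Rels {G : Type*} [Group G] (a b c : G) : Prop where
  ha : a ^ 4 = 1
  hb : b ^ 4 = 1
  hc : c ^ 3 = 1
  hab : (a * b) ^ 2 = 1
  hbc : (b * c) ^ 2 = 1
  habc : (a * b * c) ^ 2 = 1
  hT : (a⁻¹ * b) ^ 2 * (a * b⁻¹) ^ 4 = 1

section
variable {G : Type*} [Group G] {a b c : G}

/-- translation `X` -/
def gX (a b : G) : G := a⁻¹ * b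

/-- translation `Y` -/
def gY (a b : G) : G := a * b⁻¹

/-- translation `Y X⁻²` -/
def gZ (a b : G) : G := gY a b * (gX a b ^ 2)⁻¹

namespace Rels
variable (R : Rels a b c)
include R

theorem ab_inv : b⁻¹ * a⁻¹ = a * b := by
  have h := R.hab
  rw [pow_two] at h
  have : (a * b)⁻¹ = a * b := inv_eq_of_mul_eq_one_left h
  rw [← this]; group

omit R in
theorem aX : a * gX a b * a⁻¹ = (gY a b)⁻¹ := by
  simp only [gX, gY]; group

theorem aY : a * gY a b * a⁻¹ = gX a b := by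
  have h1 : a * gY a b * a⁻¹ = a * a * (b⁻¹ * a⁻¹) := by simp only [gY]; group
  rw [h1, R.ab_inv]
  have h2 : a * a * (a * b) = a ^ 4 * (a⁻¹ * b) := by simp [pow_succ, mul_assoc]
  rw [h2, R.ha, one_mul]; rfl

theorem XY : gX a b * gY a b = gY a b * gX a b := by
  have h3 : b * a = a⁻¹ * b⁻¹ := by
    have := congrArg (fun x => x⁻¹) R.ab_inv
    simp only [mul_inv_rev, inv_inv] at this
    have h := R.hab
    rw [pow_two] at h
    have h4 : b * a = a⁻¹ * (a * b * (a * b)) * b⁻¹ := by group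
    rw [h4, h]; group
  have h1 : gX a b * gY a b = a⁻¹ * (b * a) * b⁻¹ := by simp only [gX, gY]; group
  have h2 : gY a b * gX a b = a * (b⁻¹ * a⁻¹) * b := by simp only [gX, gY]; group
  rw [h1, h2, R.ab_inv, h3]
  have e1 : (a * a)⁻¹ = a * a := inv_eq_of_mul_eq_one_left (by
    have := R.ha; simp only [pow_succ, pow_zero, one_mul] at this; rw [← mul_assoc]; exact this)
  have e2 : (b * b)⁻¹ = b * b := inv_eq_of_mul_eq_one_left (by
    have := R.hb; simp only [pow_succ, pow_zero, one_mul] at this; rw [← mul_assoc]; exact this)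
  have h5 : a⁻¹ * (a⁻¹ * b⁻¹) * b⁻¹ = (a * a)⁻¹ * (b * b)⁻¹ := by group
  rw [h5, e1, e2]; group

theorem X4 : gX a b ^ 4 = gY a b ^ 2 := by
  have h : gX a b ^ 2 * gY a b ^ 4 = 1 := R.hT
  have h1 : a * (gX a b ^ 2 * gY a b ^ 4) * a⁻¹ = (a * gX a b * a⁻¹) ^ 2 * (a * gY a b * a⁻¹) ^ 4 := by
    simp only [conj_pow]; group
  rw [h, Rels.aX, R.aY] at h1
  have h2 : (gY a b)⁻¹ ^ 2 * gX a b ^ 4 = 1 := by rw [← h1]; group
  rw [inv_pow] at h2
  exact (inv_mul_eq_one.mp h2).symm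

theorem X10 : gX a b ^ 10 = 1 := by
  have h : gX a b ^ 2 * gY a b ^ 4 = 1 := R.hT
  have h1 : gY a b ^ 4 = gX a b ^ 8 := by
    have : gY a b ^ 4 = (gY a b ^ 2) ^ 2 := by rw [← pow_mul]
    rw [this, ← R.X4, ← pow_mul]
  rw [h1, ← pow_add] at h
  exact h

theorem cXY : Commute (gX a b) (gY a b) := R.XY

theorem cXZ : Commute (gX a b) (gZ a b) :=
  R.cXY.mul_right ((Commute.refl _).pow_right 2).inv_right

theorem Z2 : gZ a b ^ 2 = 1 := by
  have h : Commute (gY a b) ((gX a b ^ 2)⁻¹) := (R.cXY.symm.pow_right 2).inv_right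
  rw [gZ, h.mul_pow, ← R.X4]
  group

theorem aXs : a * gX a b = gX a b ^ 8 * gZ a b * a := by
  have h1 : a * gX a b = (a * gX a b * a⁻¹) * a := by group
  rw [h1, Rels.aX]
  congr 1
  -- Y⁻¹ = X^8 Z = X^8 Y X^-2
  have hc : Commute (gX a b ^ 8) (gY a b) := R.cXY.pow_left 8
  have h2 : gX a b ^ 8 * gZ a b = gY a b * gX a b ^ 6 := by
    rw [gZ, ← mul_assoc, hc.eq, mul_assoc]
    congr 1
    group
  rw [h2, inv_eq_iff_mul_eq_one, ← mul_assoc]
  have h3 : gY a b * gY a b = gX a b ^ 4 := by rw [R.X4, pow_two]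
  rw [h3, ← pow_add]
  exact R.X10

theorem aZs : a * gZ a b = gX a b ^ 5 * a := by
  have h1 : a * gZ a b = (a * gY a b * a⁻¹) * ((a * gX a b * a⁻¹) ^ 2)⁻¹ * a := by
    rw [gZ, conj_pow]; group
  rw [h1, Rels.aX, R.aY]
  have h2 : ((gY a b)⁻¹ ^ 2)⁻¹ = gX a b ^ 4 := by rw [R.X4]; group
  rw [h2, ← pow_succ']

theorem a_pow_X (i : ℕ) : a * gX a b ^ i = gX a b ^ (8 * i) * gZ a b ^ i * a := by
  induction i with
  | zero => simp
  | succ i ih =>
    have hc : Commute (gZ a b ^ i) (gX a b ^ 8) := (R.cXZ.symm.pow_left i).pow_right 8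
    calc a * gX a b ^ (i + 1) = (a * gX a b ^ i) * gX a b := by rw [pow_succ, mul_assoc]
      _ = gX a b ^ (8 * i) * gZ a b ^ i * (a * gX a b) := by rw [ih]; group
      _ = gX a b ^ (8 * i) * (gZ a b ^ i * gX a b ^ 8) * gZ a b * a := by rw [R.aXs]; group
      _ = gX a b ^ (8 * (i + 1)) * gZ a b ^ (i + 1) * a := by
          rw [hc.eq, mul_add, pow_add, pow_succ (gZ a b) i]; group

theorem a_pow_Z (j : ℕ) : a * gZ a b ^ j = gX a b ^ (5 * j) * a := by
  induction j with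
  | zero => simp
  | succ j ih =>
    calc a * gZ a b ^ (j + 1) = (a * gZ a b ^ j) * gZ a b := by rw [pow_succ, mul_assoc]
      _ = gX a b ^ (5 * j) * (a * gZ a b) := by rw [ih]; group
      _ = gX a b ^ (5 * (j + 1)) * a := by rw [R.aZs, mul_add, pow_add]; group

theorem amul (i j : ℕ) : a * (gX a b ^ i * gZ a b ^ j) = gX a b ^ (8 * i + 5 * j) * gZ a b ^ i * a := by
  have hc : Commute (gZ a b ^ i) (gX a b ^ (5 * j)) := (R.cXZ.symm.pow_left i).pow_right _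
  calc a * (gX a b ^ i * gZ a b ^ j) = (a * gX a b ^ i) * gZ a b ^ j := by group
    _ = gX a b ^ (8 * i) * gZ a b ^ i * (a * gZ a b ^ j) := by rw [R.a_pow_X]; group
    _ = gX a b ^ (8 * i) * (gZ a b ^ i * gX a b ^ (5 * j)) * a := by rw [R.a_pow_Z]; group
    _ = _ := by rw [hc.eq, pow_add]; group

theorem Xmod {m n : ℕ} (h : m % 10 = n % 10) : gX a b ^ m = gX a b ^ n := by
  rw [pow_eq_pow_mod m R.X10, pow_eq_pow_mod n R.X10, h]

theorem Zmod {m n : ℕ} (h : m % 2 = n % 2) : gZ a b ^ m = gZ a b ^ n := by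
  rw [pow_eq_pow_mod m R.Z2, pow_eq_pow_mod n R.Z2, h]

theorem Amod {m n : ℕ} (h : m % 4 = n % 4) : a ^ m = a ^ n := by
  rw [pow_eq_pow_mod m R.ha, pow_eq_pow_mod n R.ha, h]

theorem a2mul (i j : ℕ) : a ^ 2 * (gX a b ^ i * gZ a b ^ j) = gX a b ^ (9 * i) * gZ a b ^ j * a ^ 2 := by
  calc a ^ 2 * (gX a b ^ i * gZ a b ^ j) = a * (a * (gX a b ^ i * gZ a b ^ j)) := by rw [pow_two, mul_assoc]
    _ = a * (gX a b ^ (8 * i + 5 * j) * gZ a b ^ i) * a := by rw [R.amul]; group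
    _ = gX a b ^ (8 * (8 * i + 5 * j) + 5 * i) * gZ a b ^ (8 * i + 5 * j) * a * a := by rw [R.amul]
    _ = _ := by
      rw [R.Xmod (show (8 * (8 * i + 5 * j) + 5 * i) % 10 = (9 * i) % 10 by omega),
        R.Zmod (show (8 * i + 5 * j) % 2 = j % 2 by omega), mul_assoc _ a a, ← pow_two]

theorem a3mul (i j : ℕ) :
    a ^ 3 * (gX a b ^ i * gZ a b ^ j) = gX a b ^ (2 * i + 5 * j) * gZ a b ^ i * a ^ 3 := by
  calc a ^ 3 * (gX a b ^ i * gZ a b ^ j) = a * (a ^ 2 * (gX a b ^ i * gZ a b ^ j)) := by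
        rw [pow_succ' a 2, mul_assoc]
    _ = a * (gX a b ^ (9 * i) * gZ a b ^ j) * a ^ 2 := by rw [R.a2mul]; group
    _ = gX a b ^ (8 * (9 * i) + 5 * j) * gZ a b ^ (9 * i) * a * a ^ 2 := by rw [R.amul]
    _ = _ := by
      rw [R.Xmod (show (8 * (9 * i) + 5 * j) % 10 = (2 * i + 5 * j) % 10 by omega),
        R.Zmod (show (9 * i) % 2 = i % 2 by omega), mul_assoc _ a (a ^ 2), ← pow_succ']

theorem akmul (k i j : ℕ) (hk : k < 4) :
    a ^ k * (gX a b ^ i * gZ a b ^ j) = gX a b ^ (r1 k i j) * gZ a b ^ (r2 k i j) * a ^ k := by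
  interval_cases k
  · simp [r1, r2]
  · rw [pow_one]; exact R.amul i j
  · exact R.a2mul i j
  · exact R.a3mul i j

end Rels

/-- the element with code `q` -/
def el (a b : G) (q : ℕ) : G := gX a b ^ (q % 10) * gZ a b ^ (q / 10 % 2) * a ^ (q / 20)

theorem mulP_lt (p q : ℕ) : mulP p q < 80 := by
  unfold mulP; omega

theorem Rels.el_mul (R : Rels a b c) {p q : ℕ} (hp : p < 80) :
    el a b (mulP p q) = el a b p * el a b q := by
  have hm10 : mulP p q % 10 = (p % 10 + r1 (p / 20) (q % 10) (q / 10 % 2)) % 10 := by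
    unfold mulP; omega
  have hm2 : mulP p q / 10 % 2 = (p / 10 % 2 + r2 (p / 20) (q % 10) (q / 10 % 2)) % 2 := by
    unfold mulP; omega
  have hm4 : mulP p q / 20 = (p / 20 + q / 20) % 4 := by
    unfold mulP; omega
  have hc : Commute (gZ a b ^ (p / 10 % 2)) (gX a b ^ (r1 (p / 20) (q % 10) (q / 10 % 2))) :=
    (R.cXZ.symm.pow_left _).pow_right _
  unfold el
  rw [hm10, hm2, hm4, ← pow_eq_pow_mod _ R.X10, ← pow_eq_pow_mod _ R.Z2, ← pow_eq_pow_mod _ R.ha]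
  calc gX a b ^ (p % 10 + r1 (p / 20) (q % 10) (q / 10 % 2)) *
        gZ a b ^ (p / 10 % 2 + r2 (p / 20) (q % 10) (q / 10 % 2)) * a ^ (p / 20 + q / 20)
      = gX a b ^ (p % 10) * (gX a b ^ (r1 (p / 20) (q % 10) (q / 10 % 2)) * gZ a b ^ (p / 10 % 2)) *
        gZ a b ^ (r2 (p / 20) (q % 10) (q / 10 % 2)) * a ^ (p / 20) * a ^ (q / 20) := by
          simp only [pow_add]; group
    _ = gX a b ^ (p % 10) * gZ a b ^ (p / 10 % 2) *
        (gX a b ^ (r1 (p / 20) (q % 10) (q / 10 % 2)) * gZ a b ^ (r2 (p / 20) (q % 10) (q / 10 % 2)) *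
          a ^ (p / 20)) * a ^ (q / 20) := by rw [← hc.eq]; group
    _ = gX a b ^ (p % 10) * gZ a b ^ (p / 10 % 2) *
        (a ^ (p / 20) * (gX a b ^ (q % 10) * gZ a b ^ (q / 10 % 2))) * a ^ (q / 20) := by
          rw [R.akmul (p / 20) _ _ (by omega)]
    _ = _ := by group

end

end Pool.Agent.Hhelper9.G24
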