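import Pool.Agent.Hhelper9.G24.Data

namespace Pool.Agent.Hhelper9.G24

def r9_0 : List ℕ := [0x140200d3ea38c02, 0x140300d3ea22c02, 0x140500d3ea5cc02, 0x140700d3ea34c02, 0x140800d3ea1cc02, 0x140900d3ea86c02, 0x140b00d3ea4ec02, 0x140c00d3ea76c02, 0x140d00d3ea8cc02, 0x140e00d3ea0ec02, 0x13ee00d3eb9cc02, 0x13ef00d3eb4cc02, 0x13f100d3eb9ec02, 0x13f200d3eb4ac02, 0x140c00d3eb76c02, 0x140e00d3eb0ec02, 0x140f00d3eb9ac02, 0x141100d3eb48c02, 0x142100d3eb20c02, 0x142300d3eb60c02, 0x140700d3ec34c02, 0x140900d3ec86c02]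

theorem rc9_0 : chkL FT r9_0 5151 5173 = true := by decide +kernel

end Pool.Agent.Hhelper9.G24
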