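import Pool.Agent.Hhelper9.G24.Sound
import Pool.Agent.Hhelper9.G24.Data
import Pool.Agent.Hhelper9.G24.R0
import Pool.Agent.Hhelper9.G24.R1
import Pool.Agent.Hhelper9.G24.R2
import Pool.Agent.Hhelper9.G24.R3
import Pool.Agent.Hhelper9.G24.R4
import Pool.Agent.Hhelper9.G24.R5
import Pool.Agent.Hhelper9.G24.R6
import Pool.Agent.Hhelper9.G24.R7
import Pool.Agent.Hhelper9.G24.R8
import Pool.Agent.Hhelper9.G24.R9
import Pool.Agent.Hhelper9.G24.C0
import Pool.Agent.Hhelper9.G24.C1
import Pool.Agent.Hhelper9.G24.C2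
import Pool.Agent.Hhelper9.G24.C3
import Pool.Agent.Hhelper9.G24.C4
import Pool.Agent.Hhelper9.G24.C5

/-! Assembly: a group satisfying the relations and generated by `a, b, c` is finite. -/

namespace Pool.Agent.Hhelper9.G24

theorem defs_ok : defL FT 543 = true := by decide +kernel

theorem reasons_ok : ∀ j, 543 ≤ j → j < 5173 → ∃ r, chk FT j r = true := by
  intro j h1 h2
  by_cases h : j < 671
  · exact chkL_spec FT _ _ _ rc0_0 j (by omega) h
  by_cases h : j < 799
  · exact chkL_spec FT _ _ _ rc0_1 j (by omega) h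
  by_cases h : j < 927
  · exact chkL_spec FT _ _ _ rc0_2 j (by omega) h
  by_cases h : j < 1055
  · exact chkL_spec FT _ _ _ rc0_3 j (by omega) h
  by_cases h : j < 1183
  · exact chkL_spec FT _ _ _ rc1_0 j (by omega) h
  by_cases h : j < 1311
  · exact chkL_spec FT _ _ _ rc1_1 j (by omega) h
  by_cases h : j < 1439
  · exact chkL_spec FT _ _ _ rc1_2 j (by omega) h
  by_cases h : j < 1567
  · exact chkL_spec FT _ _ _ rc1_3 j (by omega) h
  by_cases h : j < 1695
  · exact chkL_spec FT _ _ _ rc2_0 j (by omega) h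
  by_cases h : j < 1823
  · exact chkL_spec FT _ _ _ rc2_1 j (by omega) h
  by_cases h : j < 1951
  · exact chkL_spec FT _ _ _ rc2_2 j (by omega) h
  by_cases h : j < 2079
  · exact chkL_spec FT _ _ _ rc2_3 j (by omega) h
  by_cases h : j < 2207
  · exact chkL_spec FT _ _ _ rc3_0 j (by omega) h
  by_cases h : j < 2335
  · exact chkL_spec FT _ _ _ rc3_1 j (by omega) h
  by_cases h : j < 2463
  · exact chkL_spec FT _ _ _ rc3_2 j (by omega) h
  by_cases h : j < 2591
  · exact chkL_spec FT _ _ _ rc3_3 j (by omega) h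
  by_cases h : j < 2719
  · exact chkL_spec FT _ _ _ rc4_0 j (by omega) h
  by_cases h : j < 2847
  · exact chkL_spec FT _ _ _ rc4_1 j (by omega) h
  by_cases h : j < 2975
  · exact chkL_spec FT _ _ _ rc4_2 j (by omega) h
  by_cases h : j < 3103
  · exact chkL_spec FT _ _ _ rc4_3 j (by omega) h
  by_cases h : j < 3231
  · exact chkL_spec FT _ _ _ rc5_0 j (by omega) h
  by_cases h : j < 3359
  · exact chkL_spec FT _ _ _ rc5_1 j (by omega) h
  by_cases h : j < 3487
  · exact chkL_spec FT _ _ _ rc5_2 j (by omega) h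
  by_cases h : j < 3615
  · exact chkL_spec FT _ _ _ rc5_3 j (by omega) h
  by_cases h : j < 3743
  · exact chkL_spec FT _ _ _ rc6_0 j (by omega) h
  by_cases h : j < 3871
  · exact chkL_spec FT _ _ _ rc6_1 j (by omega) h
  by_cases h : j < 3999
  · exact chkL_spec FT _ _ _ rc6_2 j (by omega) h
  by_cases h : j < 4127
  · exact chkL_spec FT _ _ _ rc6_3 j (by omega) h
  by_cases h : j < 4255
  · exact chkL_spec FT _ _ _ rc7_0 j (by omega) h
  by_cases h : j < 4383
  · exact chkL_spec FT _ _ _ rc7_1 j (by omega) h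
  by_cases h : j < 4511
  · exact chkL_spec FT _ _ _ rc7_2 j (by omega) h
  by_cases h : j < 4639
  · exact chkL_spec FT _ _ _ rc7_3 j (by omega) h
  by_cases h : j < 4767
  · exact chkL_spec FT _ _ _ rc8_0 j (by omega) h
  by_cases h : j < 4895
  · exact chkL_spec FT _ _ _ rc8_1 j (by omega) h
  by_cases h : j < 5023
  · exact chkL_spec FT _ _ _ rc8_2 j (by omega) h
  by_cases h : j < 5151
  · exact chkL_spec FT _ _ _ rc8_3 j (by omega) h
  by_cases h : j < 5173
  · exact chkL_spec FT _ _ _ rc9_0 j (by omega) h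
  omega

theorem cover_ok : ∀ m < 544 * 20, ∃ r, cov FT 5173 m r = true := by
  intro j h2
  by_cases h : j < 256
  · exact covL_spec FT _ _ _ _ cc0_0 j (by omega) h
  by_cases h : j < 512
  · exact covL_spec FT _ _ _ _ cc0_1 j (by omega) h
  by_cases h : j < 768
  · exact covL_spec FT _ _ _ _ cc0_2 j (by omega) h
  by_cases h : j < 1024
  · exact covL_spec FT _ _ _ _ cc0_3 j (by omega) h
  by_cases h : j < 1280
  · exact covL_spec FT _ _ _ _ cc0_4 j (by omega) h
  by_cases h : j < 1536
  · exact covL_spec FT _ _ _ _ cc0_5 j (by omega) h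
  by_cases h : j < 1792
  · exact covL_spec FT _ _ _ _ cc0_6 j (by omega) h
  by_cases h : j < 2048
  · exact covL_spec FT _ _ _ _ cc0_7 j (by omega) h
  by_cases h : j < 2304
  · exact covL_spec FT _ _ _ _ cc1_0 j (by omega) h
  by_cases h : j < 2560
  · exact covL_spec FT _ _ _ _ cc1_1 j (by omega) h
  by_cases h : j < 2816
  · exact covL_spec FT _ _ _ _ cc1_2 j (by omega) h
  by_cases h : j < 3072
  · exact covL_spec FT _ _ _ _ cc1_3 j (by omega) h
  by_cases h : j < 3328
  · exact covL_spec FT _ _ _ _ cc1_4 j (by omega) h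
  by_cases h : j < 3584
  · exact covL_spec FT _ _ _ _ cc1_5 j (by omega) h
  by_cases h : j < 3840
  · exact covL_spec FT _ _ _ _ cc1_6 j (by omega) h
  by_cases h : j < 4096
  · exact covL_spec FT _ _ _ _ cc1_7 j (by omega) h
  by_cases h : j < 4352
  · exact covL_spec FT _ _ _ _ cc2_0 j (by omega) h
  by_cases h : j < 4608
  · exact covL_spec FT _ _ _ _ cc2_1 j (by omega) h
  by_cases h : j < 4864
  · exact covL_spec FT _ _ _ _ cc2_2 j (by omega) h
  by_cases h : j < 5120
  · exact covL_spec FT _ _ _ _ cc2_3 j (by omega) h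
  by_cases h : j < 5376
  · exact covL_spec FT _ _ _ _ cc2_4 j (by omega) h
  by_cases h : j < 5632
  · exact covL_spec FT _ _ _ _ cc2_5 j (by omega) h
  by_cases h : j < 5888
  · exact covL_spec FT _ _ _ _ cc2_6 j (by omega) h
  by_cases h : j < 6144
  · exact covL_spec FT _ _ _ _ cc2_7 j (by omega) h
  by_cases h : j < 6400
  · exact covL_spec FT _ _ _ _ cc3_0 j (by omega) h
  by_cases h : j < 6656
  · exact covL_spec FT _ _ _ _ cc3_1 j (by omega) h
  by_cases h : j < 6912
  · exact covL_spec FT _ _ _ _ cc3_2 j (by omega) h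
  by_cases h : j < 7168
  · exact covL_spec FT _ _ _ _ cc3_3 j (by omega) h
  by_cases h : j < 7424
  · exact covL_spec FT _ _ _ _ cc3_4 j (by omega) h
  by_cases h : j < 7680
  · exact covL_spec FT _ _ _ _ cc3_5 j (by omega) h
  by_cases h : j < 7936
  · exact covL_spec FT _ _ _ _ cc3_6 j (by omega) h
  by_cases h : j < 8192
  · exact covL_spec FT _ _ _ _ cc3_7 j (by omega) h
  by_cases h : j < 8448
  · exact covL_spec FT _ _ _ _ cc4_0 j (by omega) h
  by_cases h : j < 8704
  · exact covL_spec FT _ _ _ _ cc4_1 j (by omega) h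
  by_cases h : j < 8960
  · exact covL_spec FT _ _ _ _ cc4_2 j (by omega) h
  by_cases h : j < 9216
  · exact covL_spec FT _ _ _ _ cc4_3 j (by omega) h
  by_cases h : j < 9472
  · exact covL_spec FT _ _ _ _ cc4_4 j (by omega) h
  by_cases h : j < 9728
  · exact covL_spec FT _ _ _ _ cc4_5 j (by omega) h
  by_cases h : j < 9984
  · exact covL_spec FT _ _ _ _ cc4_6 j (by omega) h
  by_cases h : j < 10240
  · exact covL_spec FT _ _ _ _ cc4_7 j (by omega) h
  by_cases h : j < 10496
  · exact covL_spec FT _ _ _ _ cc5_0 j (by omega) h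
  by_cases h : j < 10752
  · exact covL_spec FT _ _ _ _ cc5_1 j (by omega) h
  by_cases h : j < 10880
  · exact covL_spec FT _ _ _ _ cc5_2 j (by omega) h
  omega

theorem finite_of_rels {G : Type*} [Group G] {a b c : G} (R : Rels a b c)
    (hgen : Subgroup.closure {a, b, c} = ⊤) : Finite G :=
  finite_G FT R defs_ok reasons_ok cover_ok hgen

end Pool.Agent.Hhelper9.G24
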