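import Pool.Agent.Hhelper9.G24.Grp

/-! Soundness of the checker. -/

namespace Pool.Agent.Hhelper9.G24

/-- codes of the sixteen right multiplications -/
def code (kd : ℕ) : ℕ := [0, 37, 48, 71, 0, 60, 40, 20, 38, 1, 72, 49, 69, 9, 29, 49].getD kd 0

theorem rt_spec : ∀ kd < 16, ∀ p < 80, rt kd p = mulP p (code kd) := by decide +kernel

section
variable {G : Type*} [Group G] {a b c : G}

namespace Rels
variable (R : Rels a b c)
include R

omit R in
theorem el0 : el a b 0 = 1 := by simp [el]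

omit R in
theorem el20 : el a b 20 = a := by simp [el]

theorem a_inv : a⁻¹ = a ^ 3 := by
  rw [inv_eq_iff_mul_eq_one, ← pow_succ']; exact R.ha

theorem b_inv : b⁻¹ = b ^ 3 := by
  rw [inv_eq_iff_mul_eq_one, ← pow_succ']; exact R.hb

theorem el60 : el a b 60 = a⁻¹ := by
  rw [R.a_inv]; simp [el]

theorem el38 : el a b 38 = b := by
  have h : el a b 38 = gX a b ^ 8 * gZ a b * a := by simp [el]
  rw [h, ← R.aXs, gX]; group

theorem mulc {p q r : ℕ} (hp : p < 80) (h : mulP p q = r) : el a b r = el a b p * el a b q := by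
  rw [← h, R.el_mul hp]

theorem el69 : el a b 69 = b⁻¹ := by
  have h := R.mulc (p := 69) (q := 38) (r := 0) (by norm_num) (by decide +kernel)
  rw [el0, R.el38] at h
  exact eq_inv_of_mul_eq_one_left h.symm

theorem el37 : el a b 37 = b⁻¹ * a * b := by
  have h := R.mulc (p := 69) (q := 20) (r := mulP 69 20) (by norm_num) rfl
  have h2 := R.mulc (p := mulP 69 20) (q := 38) (r := 37) (by decide +kernel) (by decide +kernel)
  rw [h2, h, R.el69, el20, R.el38]

theorem bc_inv : (b * c)⁻¹ = b * c := by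
  have h := R.hbc
  rw [pow_two] at h
  exact inv_eq_of_mul_eq_one_left h

theorem cbc : c * b * c = b⁻¹ := by
  have h := R.hbc
  rw [pow_two] at h
  rw [eq_inv_iff_mul_eq_one]
  have : c * b * c * b = b⁻¹ * (b * c * (b * c)) * b := by group
  rw [this, h]; group

theorem ec : b⁻¹ * a * b * c = c * a⁻¹ := by
  have h := R.habc
  rw [pow_two] at h
  -- a (bc) a (bc) = 1
  have h1 : a * (b * c) = (b * c)⁻¹ * a⁻¹ := by
    have h3 : a * (b * c) * (a * (b * c)) = 1 := by rw [← h]; group
    have h2 := eq_inv_of_mul_eq_one_left h3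
    rw [h2]; group
  rw [R.bc_inv] at h1
  calc b⁻¹ * a * b * c = b⁻¹ * (a * (b * c)) := by group
    _ = b⁻¹ * (b * c * a⁻¹) := by rw [h1]
    _ = c * a⁻¹ := by group

theorem shift (g : ℕ) (hg : g < 4) : el a b (code g) * c = c * el a b (code (g + 4)) := by
  have e1 : el a b 37 * c = c * el a b 60 := by rw [R.el37, R.el60]; exact R.ec
  have h48 := R.mulc (p := 37) (q := 37) (r := 48) (by norm_num) (by decide +kernel)
  have h40 := R.mulc (p := 60) (q := 60) (r := 40) (by norm_num) (by decide +kernel)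
  have h71 := R.mulc (p := 37) (q := 48) (r := 71) (by norm_num) (by decide +kernel)
  have h20 := R.mulc (p := 60) (q := 40) (r := 20) (by norm_num) (by decide +kernel)
  have e2 : el a b 48 * c = c * el a b 40 := by
    rw [h48, mul_assoc, e1, ← mul_assoc, e1, mul_assoc, ← h40]
  interval_cases g
  · simp [code, el0]
  · exact e1
  · exact e2
  · show el a b 71 * c = c * el a b 20
    rw [h71, mul_assoc, e2, ← mul_assoc, e1, mul_assoc, ← h20]

theorem flip1 (k : ℕ) (hk : k < 4) : el a b (code (k + 8)) = el a b (code (k + 4)) * b := by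
  have h : ∀ k < 4, code (k + 4) < 80 ∧ mulP (code (k + 4)) 38 = code (k + 8) := by decide +kernel
  rw [R.mulc (h k hk).1 (h k hk).2, R.el38]

theorem flip2 (k : ℕ) (hk : k < 4) : el a b (code (k + 12)) = el a b (code k) * b⁻¹ := by
  have h : ∀ k < 4, code k < 80 ∧ mulP (code k) 69 = code (k + 12) := by decide +kernel
  rw [R.mulc (h k hk).1 (h k hk).2, R.el69]

end Rels

/-- the subgroup generated by `a, b` -/
def HH (a b : G) : Subgroup G := Subgroup.closure {a, b}

theorem a_mem : a ∈ HH a b := Subgroup.subset_closure (by simp)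

theorem b_mem : b ∈ HH a b := Subgroup.subset_closure (by simp)

theorem gX_mem : gX a b ∈ HH a b := mul_mem (inv_mem a_mem) b_mem

theorem gZ_mem : gZ a b ∈ HH a b :=
  mul_mem (mul_mem a_mem (inv_mem b_mem)) (inv_mem (pow_mem gX_mem 2))

theorem el_mem (q : ℕ) : el a b q ∈ HH a b :=
  mul_mem (mul_mem (pow_mem gX_mem _) (pow_mem gZ_mem _)) (pow_mem a_mem _)

/-- same right coset of `⟨a, b⟩` -/
def Rl (a b : G) (x y : G) : Prop := ∃ h ∈ HH a b, x = h * y

theorem Rl.refl (x : G) : Rl a b x x := ⟨1, one_mem _, by simp⟩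

theorem Rl.symm {x y : G} (h : Rl a b x y) : Rl a b y x := by
  obtain ⟨u, hu, rfl⟩ := h
  exact ⟨u⁻¹, inv_mem hu, by group⟩

theorem Rl.trans {x y z : G} (h : Rl a b x y) (h' : Rl a b y z) : Rl a b x z := by
  obtain ⟨u, hu, rfl⟩ := h
  obtain ⟨v, hv, rfl⟩ := h'
  exact ⟨u * v, mul_mem hu hv, by group⟩

theorem Rl.mul_right {x y : G} (h : Rl a b x y) (z : G) : Rl a b (x * z) (y * z) := by
  obtain ⟨u, hu, rfl⟩ := h
  exact ⟨u, hu, by group⟩

variable (FT : Tr) (a b c)

/-- coset representatives -/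
noncomputable def dd (i : ℕ) : G :=
  if h : 0 < i ∧ fz (FT.get (i - 1)) / 80 < i then
    dd (fz (FT.get (i - 1)) / 80) * el a b (fz (FT.get (i - 1)) % 80) * c
  else 1
termination_by i
decreasing_by exact h.2

/-- the group element attached to a label -/
noncomputable def DD (l : ℕ) : G := dd a b c FT (l / 80) * el a b (l % 80)

theorem DD_mk (o : ℕ) {p : ℕ} (hp : p < 80) : DD a b c FT (o * 80 + p) = dd a b c FT o * el a b p := by
  have h1 : (o * 80 + p) / 80 = o := by omega
  have h2 : (o * 80 + p) % 80 = p := by omega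
  rw [DD, h1, h2]

/-- validity of a fact -/
def VV (f : ℕ) : Prop :=
  if f % 2 = 0 then Rl a b (DD a b c FT (fz f) * c) (DD a b c FT (fy f))
  else Rl a b (DD a b c FT (fz f)) (dd a b c FT (fz f / 80))

variable {a b c}
variable (R : Rels a b c)
include R

theorem DD_rl {kd : ℕ} (hkd : kd < 16) (l : ℕ) :
    DD a b c FT (rl kd l) = DD a b c FT l * el a b (code kd) := by
  have h1 : l % 80 < 80 := Nat.mod_lt _ (by norm_num)
  have h2 : rl kd l = l / 80 * 80 + mulP (l % 80) (code kd) := by
    rw [← rt_spec kd hkd _ h1]; rfl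
  rw [h2, DD_mk _ _ _ _ _ (mulP_lt _ _), R.el_mul h1, DD, mul_assoc]

theorem inst {f g : ℕ} (hf : f % 2 = 0) (hg : g < 8) (hV : VV a b c FT f) :
    Rl a b (DD a b c FT (srcI f g) * c) (DD a b c FT (tgtI f g)) := by
  have hV' : Rl a b (DD a b c FT (fz f) * c) (DD a b c FT (fy f)) := by
    simpa [VV, hf] using hV
  by_cases hg4 : g < 4
  · have hb : Nat.blt g 4 = true := by simpa [Nat.blt_eq] using hg4
    have h1 : srcI f g = rl g (fz f) := by simp [srcI, hb]
    have h2 : tgtI f g = rl (g + 4) (fy f) := by simp [tgtI, hb]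
    rw [h1, h2, DD_rl FT R (by omega), DD_rl FT R (by omega), mul_assoc, R.shift g hg4, ← mul_assoc]
    exact hV'.mul_right _
  · have hb : Nat.blt g 4 = false := by
      rw [← Bool.not_eq_true, Nat.blt_eq]; exact hg4
    obtain ⟨k, rfl⟩ : ∃ k, g = k + 4 := ⟨g - 4, by omega⟩
    have hk : k < 4 := by omega
    have h1 : srcI f (k + 4) = rl (k + 8) (fy f) := by simp [srcI, hb]
    have h2 : tgtI f (k + 4) = rl (k + 12) (fz f) := by simp [tgtI, hb]
    rw [h1, h2, DD_rl FT R (by omega), DD_rl FT R (by omega), R.flip1 k hk, R.flip2 k hk]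
    have h3 := (hV'.symm.mul_right (el a b (code (k + 4)))).mul_right (b * c)
    have h4 : DD a b c FT (fz f) * c * el a b (code (k + 4)) * (b * c) =
        DD a b c FT (fz f) * (el a b (code k) * b⁻¹) := by
      rw [mul_assoc (DD a b c FT (fz f)) c, ← R.shift k hk]
      have h5 : DD a b c FT (fz f) * (el a b (code k) * c) * (b * c) =
        DD a b c FT (fz f) * el a b (code k) * (c * b * c) := by group
      rw [h5, R.cbc]; group
    rw [h4] at h3
    have h6 : DD a b c FT (fy f) * (el a b (code (k + 4)) * b) * c =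
      DD a b c FT (fy f) * el a b (code (k + 4)) * (b * c) := by group
    rw [h6]; exact h3

theorem efact {f q : ℕ} (hf : f % 2 = 1) (hV : VV a b c FT f) :
    Rl a b (DD a b c FT (fz f / 80 * 80 + mulP (fz f % 80) (q % 80)))
      (DD a b c FT (fz f / 80 * 80 + q % 80)) := by
  have hV' : Rl a b (DD a b c FT (fz f)) (dd a b c FT (fz f / 80)) := by
    simpa [VV, hf] using hV
  have h1 : fz f % 80 < 80 := Nat.mod_lt _ (by norm_num)
  have h2 : q % 80 < 80 := Nat.mod_lt _ (by norm_num)
  rw [DD_mk _ _ _ _ _ (mulP_lt _ _), DD_mk _ _ _ _ _ h2, R.el_mul h1, ← mul_assoc]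
  exact hV'.mul_right _

theorem ev_sound {B : ℕ} (hV : ∀ j < B, VV a b c FT (FT.get j)) (x0 : G) (k : ℕ → ℕ → Bool) (n : ℕ) :
    ∀ p cur ex, Rl a b (x0 * c ^ ex) (DD a b c FT cur) → ev FT B k n p cur ex = true →
      ∃ cur' ex', Rl a b (x0 * c ^ ex') (DD a b c FT cur') ∧ k cur' ex' = true := by
  induction n with
  | zero =>
    intro p cur ex h1 h2
    exact ⟨cur, ex, h1, h2⟩
  | succ n ih =>
    intro p cur ex h1 h2
    have h3 : stp FT B (ev FT B k n) p cur ex = true := h2
    unfold stp at h3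
    simp only at h3
    generalize hj : p / 1024 % 16384 = j at h3
    generalize hg : p / 8 % 128 = g at h3
    cases h0 : Nat.beq (p % 8) 0 with
    | true =>
      rw [h0, cond_true] at h3
      simp only [Bool.and_eq_true, Nat.blt_eq, Nat.beq_eq] at h3
      obtain ⟨hjB, hf, hg8, hcur, hev⟩ := h3
      refine ih _ _ _ ?_ hev
      have h4 := inst FT R hf hg8 (hV j hjB)
      rw [← hcur] at h4
      have h5 := h1.mul_right c
      rw [mul_assoc, ← pow_succ] at h5
      exact h5.trans h4
    | false =>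
    rw [h0, cond_false] at h3
    cases h0 : Nat.beq (p % 8) 1 with
    | true =>
      rw [h0, cond_true] at h3
      simp only [Bool.and_eq_true, Nat.blt_eq, Nat.beq_eq] at h3
      obtain ⟨hjB, hf, hg8, hcur, hev⟩ := h3
      refine ih _ _ _ ?_ hev
      have h4 := inst FT R hf hg8 (hV j hjB)
      rw [← hcur] at h4
      -- D(src) c ≈ D(cur) ≈ x0 c^ex
      have h5 := (h1.trans h4.symm).mul_right (c ^ 2)
      rw [mul_assoc, ← pow_add, mul_assoc, ← pow_succ', R.hc, mul_one] at h5
      exact h5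
    | false =>
    rw [h0, cond_false] at h3
    cases h0 : Nat.beq (p % 8) 2 with
    | true =>
      rw [h0, cond_true] at h3
      simp only [Bool.and_eq_true, Nat.blt_eq, Nat.beq_eq] at h3
      obtain ⟨hjB, hf, ho, hev⟩ := h3
      refine ih _ _ _ ?_ hev
      have h4 := efact FT R (q := cur) hf (hV j hjB)
      have h5 : fz (FT.get j) / 80 * 80 + cur % 80 = cur := by omega
      rw [h5] at h4
      exact h1.trans h4.symm
    | false =>
    rw [h0, cond_false] at h3
    cases h0 : Nat.beq (p % 8) 3 with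
    | true =>
      rw [h0, cond_true] at h3
      simp only [Bool.and_eq_true, Nat.blt_eq, Nat.beq_eq] at h3
      obtain ⟨hjB, hf, hg80, hcur, hev⟩ := h3
      refine ih _ _ _ ?_ hev
      have h4 := efact FT R (q := g) hf (hV j hjB)
      have h5 : g % 80 = g := Nat.mod_eq_of_lt hg80
      rw [h5, ← hcur] at h4
      exact h1.trans h4
    | false =>
      rw [h0, cond_false] at h3
      simp only [Bool.and_eq_true, Nat.blt_eq] at h3
      obtain ⟨hc80, hg80, hev⟩ := h3
      refine ih _ _ _ ?_ hev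
      refine h1.trans ?_
      have e1 : DD a b c FT cur = dd a b c FT 0 * el a b cur := by
        have := DD_mk a b c FT 0 hc80
        simpa using this
      have e2 : DD a b c FT g = dd a b c FT 0 * el a b g := by
        have := DD_mk a b c FT 0 hg80
        simpa using this
      have e3 : dd a b c FT 0 = 1 := by rw [dd]; simp
      rw [e1, e2, e3, one_mul, one_mul]
      exact ⟨el a b cur * (el a b g)⁻¹, mul_mem (el_mem _) (inv_mem (el_mem _)), by group⟩

theorem c_pow_mod (n : ℕ) : c ^ n = c ^ (n % 3) := pow_eq_pow_mod n R.hc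

theorem chk_sound {j r : ℕ} (hV : ∀ i < j, VV a b c FT (FT.get i)) (h : chk FT j r = true) :
    VV a b c FT (FT.get j) := by
  unfold chk at h
  simp only at h
  generalize FT.get j = f at h
  cases h0 : Nat.beq (f % 2) 0 with
  | true =>
    rw [h0, cond_true] at h
    have hf : f % 2 = 0 := by simpa [Nat.beq_eq] using h0
    obtain ⟨cur', ex', h1, h2⟩ := ev_sound FT R hV (DD a b c FT (fz f)) _ _ _ (fz f) 0
      (by rw [pow_zero, mul_one]; exact Rl.refl _) h
    simp only [Bool.and_eq_true, Nat.beq_eq] at h2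
    rw [VV, if_pos hf]
    rw [c_pow_mod R, h2.2, pow_one, h2.1] at h1
    exact h1
  | false =>
    rw [h0, cond_false] at h
    simp only [Bool.and_eq_true, Nat.blt_eq] at h
    obtain ⟨hq, h⟩ := h
    have hf : f % 2 ≠ 0 := by
      intro hf; rw [hf] at h0; simp at h0
    generalize r / 8 % 128 = q at hq h
    obtain ⟨cur', ex', h1, h2⟩ := ev_sound FT R hV
      (DD a b c FT (fz f / 80 * 80 + mulP (fz f % 80) q)) _ _ _ _ 0
      (by rw [pow_zero, mul_one]; exact Rl.refl _) h
    simp only [Bool.and_eq_true, Nat.beq_eq] at h2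
    rw [VV, if_neg hf]
    rw [c_pow_mod R, h2.2, pow_zero, mul_one, h2.1, DD_mk _ _ _ _ _ (mulP_lt _ _),
      DD_mk _ _ _ _ _ hq, R.el_mul (Nat.mod_lt _ (by norm_num))] at h1
    have h3 := h1.mul_right (el a b q)⁻¹
    have h4 : dd a b c FT (fz f / 80) * (el a b (fz f % 80) * el a b q) * (el a b q)⁻¹ =
      dd a b c FT (fz f / 80) * el a b (fz f % 80) := by group
    have h5 : dd a b c FT (fz f / 80) * el a b q * (el a b q)⁻¹ = dd a b c FT (fz f / 80) := by group
    rw [h4, h5] at h3
    exact h3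

end

theorem chkL_spec (FT : Tr) (l : List ℕ) : ∀ s e, chkL FT l s e = true →
    ∀ j, s ≤ j → j < e → ∃ r, chk FT j r = true := by
  induction l with
  | nil =>
    intro s e h j h1 h2
    have h3 : s = e := by
      have : Nat.beq s e = true := h
      simpa [Nat.beq_eq] using this
    omega
  | cons r l ih =>
    intro s e h j h1 h2
    have h3 : (chk FT s r && chkL FT l (s + 1) e) = true := h
    rw [Bool.and_eq_true] at h3
    rcases Nat.eq_or_lt_of_le h1 with h4 | h4
    · exact ⟨r, h4 ▸ h3.1⟩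
    · exact ih (s + 1) e h3.2 j h4 h2

theorem covL_spec (FT : Tr) (K : ℕ) (l : List ℕ) : ∀ s e, covL FT K l s e = true →
    ∀ j, s ≤ j → j < e → ∃ r, cov FT K j r = true := by
  induction l with
  | nil =>
    intro s e h j h1 h2
    have h3 : s = e := by
      have : Nat.beq s e = true := h
      simpa [Nat.beq_eq] using this
    omega
  | cons r l ih =>
    intro s e h j h1 h2
    have h3 : (cov FT K s r && covL FT K l (s + 1) e) = true := h
    rw [Bool.and_eq_true] at h3
    rcases Nat.eq_or_lt_of_le h1 with h4 | h4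
    · exact ⟨r, h4 ▸ h3.1⟩
    · exact ih (s + 1) e h3.2 j h4 h2

theorem defL_spec (FT : Tr) (n : ℕ) (h : defL FT n = true) : ∀ j < n,
    FT.get j % 2 = 0 ∧ fy (FT.get j) = 80 * (j + 1) ∧ fz (FT.get j) / 80 ≤ j := by
  induction n with
  | zero => intro j hj; omega
  | succ n ih =>
    intro j hj
    have h3 : ((Nat.beq (FT.get n % 2) 0 && (Nat.beq (fy (FT.get n)) (80 * (n + 1)) &&
      Nat.ble (fz (FT.get n) / 80) n)) && defL FT n) = true := h
    simp only [Bool.and_eq_true, Nat.beq_eq, Nat.ble_eq] at h3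
    rcases Nat.lt_succ_iff_lt_or_eq.mp hj with h4 | h4
    · exact ih h3.2 j h4
    · subst h4; exact h3.1

section
variable {G : Type*} [Group G] {a b c : G} (FT : Tr) (R : Rels a b c)
include R

theorem all_valid {n K : ℕ} (hdef : defL FT n = true)
    (hchk : ∀ j, n ≤ j → j < K → ∃ r, chk FT j r = true) :
    ∀ j < K, VV a b c FT (FT.get j) := by
  intro j
  induction j using Nat.strong_induction_on with
  | _ j ih =>
    intro hj
    rcases Nat.lt_or_ge j n with h | h
    · obtain ⟨h1, h2, h3⟩ := defL_spec FT n hdef j h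
      rw [VV, if_pos h1, h2]
      have h4 : DD a b c FT (80 * (j + 1)) = DD a b c FT (fz (FT.get j)) * c := by
        have e1 : DD a b c FT (80 * (j + 1)) = dd a b c FT (j + 1) := by
          have := DD_mk a b c FT (j + 1) (p := 0) (by norm_num)
          rw [add_zero, mul_comm] at this
          rw [this, Rels.el0, mul_one]
        rw [e1, dd, dif_pos ⟨Nat.succ_pos _, by simpa using Nat.lt_succ_of_le h3⟩]
        simp [DD]
      rw [h4]
      exact Rl.refl _
    · obtain ⟨r, hr⟩ := hchk j h hj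
      exact chk_sound FT R (fun i hi => ih i hi (hi.trans hj)) hr

/-- the set of elements reached -/
def SS (a b c : G) (FT : Tr) : Set G := {x | ∃ l < 43520, Rl a b x (DD a b c FT l)}

theorem DD_mul {kd : ℕ} (hkd : kd < 80) (l : ℕ) :
    DD a b c FT (l / 80 * 80 + mulP (l % 80) kd) = DD a b c FT l * el a b kd := by
  rw [DD_mk _ _ _ _ _ (mulP_lt _ _), R.el_mul (Nat.mod_lt _ (by norm_num)), DD, mul_assoc]

theorem SS_a {x : G} (hx : x ∈ SS a b c FT) : x * a ∈ SS a b c FT := by
  obtain ⟨l, hl, h⟩ := hx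
  refine ⟨l / 80 * 80 + mulP (l % 80) 20, ?_, ?_⟩
  · have := mulP_lt (l % 80) 20
    omega
  · rw [DD_mul FT R (by norm_num), Rels.el20]
    exact h.mul_right _

theorem SS_b {x : G} (hx : x ∈ SS a b c FT) : x * b ∈ SS a b c FT := by
  obtain ⟨l, hl, h⟩ := hx
  refine ⟨l / 80 * 80 + mulP (l % 80) 38, ?_, ?_⟩
  · have := mulP_lt (l % 80) 38
    omega
  · rw [DD_mul FT R (by norm_num), R.el38]
    exact h.mul_right _

omit R [Group G] in
theorem decomp : ∀ p < 80, ∃ t < 20, ∃ g < 4, mulP t (code g) = p := by decide +kernel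

omit R [Group G] in
theorem inv_ex : ∀ p < 80, ∃ q < 80, mulP q p = 0 := by decide +kernel

theorem SS_c {K : ℕ} (hV : ∀ j < K, VV a b c FT (FT.get j))
    (hcov : ∀ m < 544 * 20, ∃ r, cov FT K m r = true)
    {x : G} (hx : x ∈ SS a b c FT) : x * c ∈ SS a b c FT := by
  obtain ⟨l, hl, h⟩ := hx
  obtain ⟨t, ht, g, hg, hp⟩ := decomp (l % 80) (Nat.mod_lt _ (by norm_num))
  obtain ⟨r, hr⟩ := hcov (l / 80 * 20 + t) (by omega)
  have hm : (l / 80 * 20 + t) / 20 * 80 + (l / 80 * 20 + t) % 20 = l / 80 * 80 + t := by omega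
  unfold cov at hr
  rw [hm] at hr
  obtain ⟨cur', ex', h1, h2⟩ := ev_sound FT R hV (DD a b c FT (l / 80 * 80 + t)) _ _ _ _ 0
    (by rw [pow_zero, mul_one]; exact Rl.refl _) hr
  simp only [Bool.and_eq_true, Nat.beq_eq, Nat.blt_eq] at h2
  rw [c_pow_mod R, h2.1, pow_one] at h1
  refine ⟨rl (g + 4) cur', ?_, ?_⟩
  · have h3 : rt (g + 4) (cur' % 80) < 80 := by
      rw [rt_spec _ (by omega) _ (Nat.mod_lt _ (by norm_num))]
      exact mulP_lt _ _
    have h4 : rl (g + 4) cur' = cur' / 80 * 80 + rt (g + 4) (cur' % 80) := rfl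
    have h5 := h2.2
    omega
  · rw [DD_rl FT R (by omega)]
    refine (h.mul_right c).trans ?_
    have h6 : DD a b c FT l = DD a b c FT (l / 80 * 80 + t) * el a b (code g) := by
      rw [DD_mk _ _ _ _ _ (by omega), mul_assoc, ← R.el_mul (by omega), hp]; rfl
    rw [h6, mul_assoc, R.shift g hg, ← mul_assoc]
    exact h1.mul_right _

theorem HH_el {h : G} (hh : h ∈ HH a b) : ∃ q < 80, h = el a b q := by
  induction hh using Subgroup.closure_induction with
  | mem x hx =>
    rcases hx with rfl | hx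
    · exact ⟨20, by norm_num, Rels.el20.symm⟩
    · rw [Set.mem_singleton_iff] at hx
      subst hx
      exact ⟨38, by norm_num, R.el38.symm⟩
  | one => exact ⟨0, by norm_num, Rels.el0.symm⟩
  | mul x y _ _ hx hy =>
    obtain ⟨p, hp, rfl⟩ := hx
    obtain ⟨q, hq, rfl⟩ := hy
    exact ⟨mulP p q, mulP_lt _ _, (R.el_mul hp).symm⟩
  | inv x _ hx =>
    obtain ⟨p, hp, rfl⟩ := hx
    obtain ⟨q, hq, hqp⟩ := inv_ex p hp
    refine ⟨q, hq, ?_⟩
    have h1 := R.mulc hq hqp
    rw [Rels.el0] at h1
    exact (eq_inv_of_mul_eq_one_left h1.symm).symm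

theorem finite_G {n K : ℕ} (hdef : defL FT n = true)
    (hchk : ∀ j, n ≤ j → j < K → ∃ r, chk FT j r = true)
    (hcov : ∀ m < 544 * 20, ∃ r, cov FT K m r = true)
    (hgen : Subgroup.closure {a, b, c} = ⊤) : Finite G := by
  have hV := all_valid FT R hdef hchk
  have h1 : (1 : G) ∈ SS a b c FT := by
    refine ⟨0, by norm_num, ?_⟩
    have e3 : dd a b c FT 0 = 1 := by rw [dd]; simp
    have : DD a b c FT 0 = 1 := by
      have := DD_mk a b c FT 0 (p := 0) (by norm_num)
      simpa [e3, Rels.el0] using this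
    rw [this]
    exact Rl.refl _
  have hA : ∀ x ∈ SS a b c FT, x * a ∈ SS a b c FT := fun x hx => SS_a FT R hx
  have hB : ∀ x ∈ SS a b c FT, x * b ∈ SS a b c FT := fun x hx => SS_b FT R hx
  have hC : ∀ x ∈ SS a b c FT, x * c ∈ SS a b c FT := fun x hx => SS_c FT R hV hcov hx
  have hA' : ∀ x ∈ SS a b c FT, x * a⁻¹ ∈ SS a b c FT := by
    intro x hx
    have : x * a⁻¹ = x * a * a * a := by rw [R.a_inv]; simp [pow_succ, mul_assoc]
    rw [this]
    exact hA _ (hA _ (hA _ hx))
  have hB' : ∀ x ∈ SS a b c FT, x * b⁻¹ ∈ SS a b c FT := by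
    intro x hx
    have : x * b⁻¹ = x * b * b * b := by rw [R.b_inv]; simp [pow_succ, mul_assoc]
    rw [this]
    exact hB _ (hB _ (hB _ hx))
  have hC' : ∀ x ∈ SS a b c FT, x * c⁻¹ ∈ SS a b c FT := by
    intro x hx
    have hc : c⁻¹ = c ^ 2 := by
      rw [inv_eq_iff_mul_eq_one, ← pow_succ']; exact R.hc
    have : x * c⁻¹ = x * c * c := by rw [hc]; simp [pow_succ, mul_assoc]
    rw [this]
    exact hC _ (hC _ hx)
  have hall : ∀ x : G, x ∈ SS a b c FT := by
    intro x
    have hx : x ∈ Subgroup.closure {a, b, c} := by rw [hgen]; trivial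
    induction hx using Subgroup.closure_induction_right with
    | one => exact h1
    | mul_right x _ y hy hx =>
      rcases hy with rfl | rfl | rfl
      · exact hA _ hx
      · exact hB _ hx
      · exact hC _ hx
    | mul_inv_cancel x _ y hy hx =>
      rcases hy with rfl | rfl | rfl
      · exact hA' _ hx
      · exact hB' _ hx
      · exact hC' _ hx
  refine Finite.of_surjective (fun z : Fin 80 × Fin 43520 => el a b z.1 * DD a b c FT z.2) ?_
  intro x
  obtain ⟨l, hl, h, hh, rfl⟩ := hall x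
  obtain ⟨q, hq, rfl⟩ := HH_el R hh
  exact ⟨(⟨q, hq⟩, ⟨l, hl⟩), rfl⟩

end

end Pool.Agent.Hhelper9.G24
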